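import Pool.Agent.Y413.PM.Stm

/-!
# PM-STAR: an inequality edge by edge
-/

set_option autoImplicit false

open Finset

namespace Y450.PM

open Y413.PM

theorem typ {V : Type} [DecidableEq V] {Z S A Q : Finset V} {v : V} (hZS : Disjoint Z S)
    (hA : A ⊆ Z) (hv : v ∈ A) (hQ : Q ⊆ S) (x : V) :
    (x ∈ Z ∧ x ∉ S ∧ x ∈ A ∧ x ∉ Q ∧ (x = v ↔ True)) ∨
    (x ∈ Z ∧ x ∉ S ∧ x ∈ A ∧ x ∉ Q ∧ (x = v ↔ False)) ∨
    (x ∈ Z ∧ x ∉ S ∧ x ∉ A ∧ x ∉ Q ∧ (x = v ↔ False)) ∨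
    (x ∉ Z ∧ x ∈ S ∧ x ∉ A ∧ x ∈ Q ∧ (x = v ↔ False)) ∨
    (x ∉ Z ∧ x ∈ S ∧ x ∉ A ∧ x ∉ Q ∧ (x = v ↔ False)) ∨
    (x ∉ Z ∧ x ∉ S ∧ x ∉ A ∧ x ∉ Q ∧ (x = v ↔ False)) := by
  have h1 : x ∈ Z → x ∉ S := fun h h' => (Finset.disjoint_left.mp hZS) h h'
  have h2 : x ∈ A → x ∈ Z := fun h => hA h
  have h3 : x ∈ Q → x ∈ S := fun h => hQ h
  have h4 : x ∉ A → (x = v ↔ False) := fun h => ⟨fun h' => h (h' ▸ hv), False.elim⟩
  by_cases hZ : x ∈ Z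
  · have hS := h1 hZ
    have hq : x ∉ Q := fun h => hS (h3 h)
    by_cases ha : x ∈ A
    · by_cases hx : x = v
      · exact Or.inl ⟨hZ, hS, ha, hq, iff_true_intro hx⟩
      · exact Or.inr (Or.inl ⟨hZ, hS, ha, hq, iff_false_intro hx⟩)
    · exact Or.inr (Or.inr (Or.inl ⟨hZ, hS, ha, hq, h4 ha⟩))
  · have ha : x ∉ A := fun h => hZ (h2 h)
    by_cases hS : x ∈ S
    · by_cases hq : x ∈ Q
      · exact Or.inr (Or.inr (Or.inr (Or.inl ⟨hZ, hS, ha, hq, h4 ha⟩)))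
      · exact Or.inr (Or.inr (Or.inr (Or.inr (Or.inl ⟨hZ, hS, ha, hq, h4 ha⟩))))
    · exact Or.inr (Or.inr (Or.inr (Or.inr (Or.inr ⟨hZ, hS, ha, fun h => hS (h3 h), h4 ha⟩))))

theorem t_STAR : Y413.PM.S_STAR := by
  intro V _ _ E hE Z S A Q v hZS hA hv hQ
  classical
  unfold M cr
  simp only [Finset.card_filter, ← Finset.sum_add_distrib]
  refine Finset.sum_le_sum fun e he => ?_
  have hd := hE e he
  induction e using Sym2.ind with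
  | _ a b =>
    rw [Sym2.mk_isDiag_iff] at hd
    simp only [hit_mk, mem_union, mem_sdiff, mem_erase, mem_compl]
    rcases typ hZS hA hv hQ a with ha | ha | ha | ha | ha | ha <;>
    rcases typ hZS hA hv hQ b with hb | hb | hb | hb | hb | hb <;>
    first
    | (exfalso
       exact hd (((iff_true _).mp ha.2.2.2.2).trans ((iff_true _).mp hb.2.2.2.2).symm))
    | (obtain ⟨a1, a2, a3, a4, a5⟩ := ha
       obtain ⟨b1, b2, b3, b4, b5⟩ := hb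
       simp [a1, a2, a3, a4, a5, b1, b2, b3, b4, b5])

end Y450.PM
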